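import Pool.Agent.LibO1.Main

/-!
MP_b19625_al: the number of indecomposable summands of rigid modules over gendo-symmetric algebras of
representation dimension at most three is not bounded by a function of the number of simple modules.
The definitions are in `Pool.Agent.LibO1.Defs`.
-/

set_option autoImplicit false

namespace Pool.Agent.Results.MP_b19625_al.NegativeAnswer

open Pool.Agent.LibO1

/-- For every field `K` and every `N` there is a symmetric algebra `A` in the class `𝒞` with exactly
three simple modules, representation dimension at most three, and `o₁(A) ≥ N`. -/
theorem result (K : Type) [Field K] (N : ℕ) :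
    ∃ (A : Type) (_ : Ring A) (_ : Algebra K A),
      InC K A ∧ IsSym K A ∧ RepDimLE A 3 ∧ numSimples Aᵐᵒᵖ = 3 ∧ OneGE A N :=
  ⟨Alg K (Fin (N + 2)), inferInstance, inferInstance, inC, isSym, repDimLE, numSimples_eq,
    oneGE N⟩

end Pool.Agent.Results.MP_b19625_al.NegativeAnswer
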